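import Pool.Agent.Helper58.QD.StS

/-!
Project QD, module Oex: outer extension of primitives.
-/

set_option autoImplicit false

namespace Pool.Agent.Helper66.QD

open Helper62.LH Helper62.DSH Helper58.QD MeasureTheory Set Filter Topology
open scoped ContDiff ENNReal

lemma cont_q2 {n j : ℕ} : Continuous (q2 : Tn n j → ℝ) := by
  unfold q2 ipt
  fun_prop

/-- the estimate of the integral over a compact set, cut into two parts -/
lemma split_est {n j : ℕ} {w : E n → ℝ} (hw : Continuous w) (hw0 : ∀ x, 0 < w x)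
    {u u1 : E n → Tn n j} (hu : Continuous u) (hu1 : Continuous u1)
    (hq : ∀ t : Tn n j, 0 ≤ q2 t)
    {b' : E n → ℝ} (hb : Continuous b') {Z Z1 B : Set (E n)} {s K : ℝ} (hZ : IsCompact Z)
    (hZ1 : IsCompact Z1) (hBi : IntegrableOn w B)
    (h1 : ∀ x ∈ Z, b' x ≤ s → x ∈ Z1 ∧ u x = u1 x) (hK : 0 ≤ K)
    (h2 : ∀ x ∈ Z, s < b' x → x ∈ B ∧ q2 (u x) ≤ K) :
    ∫ x in Z, q2 (u x) * w x ≤ (∫ x in Z1, q2 (u1 x) * w x) + K * ∫ x in B, w x := by
  have hc : Continuous fun x => q2 (u x) * w x := (cont_q2.comp hu).mul hw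
  have hc1 : Continuous fun x => q2 (u1 x) * w x := (cont_q2.comp hu1).mul hw
  have hiZ : IntegrableOn (fun x => q2 (u x) * w x) Z := hc.continuousOn.integrableOn_compact hZ
  have hiZ1 : IntegrableOn (fun x => q2 (u1 x) * w x) Z1 :=
    hc1.continuousOn.integrableOn_compact hZ1
  have hmS : MeasurableSet {x | b' x ≤ s} := (isClosed_le hb continuous_const).measurableSet
  rw [← integral_inter_add_sdiff hmS hiZ]
  refine add_le_add ?_ ?_
  · calc ∫ x in Z ∩ {x | b' x ≤ s}, q2 (u x) * w x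
        = ∫ x in Z ∩ {x | b' x ≤ s}, q2 (u1 x) * w x := by
          refine setIntegral_congr_fun (hZ.measurableSet.inter hmS) fun x hx => ?_
          show q2 (u x) * w x = q2 (u1 x) * w x
          rw [(h1 x hx.1 hx.2).2]
      _ ≤ ∫ x in Z1, q2 (u1 x) * w x := by
          refine setIntegral_mono_set hiZ1 ?_ ?_
          · exact Eventually.of_forall fun x => mul_nonneg (hq _) (hw0 x).le
          · exact Eventually.of_forall fun x hx => (h1 x hx.1 hx.2).1
  · have hmD : MeasurableSet (Z \ {x | b' x ≤ s}) := hZ.measurableSet.diff hmS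
    have hsub : Z \ {x | b' x ≤ s} ⊆ B := fun x hx => (h2 x hx.1 (not_le.1 hx.2)).1
    calc ∫ x in Z \ {x | b' x ≤ s}, q2 (u x) * w x
        ≤ ∫ x in Z \ {x | b' x ≤ s}, K * w x := by
          refine setIntegral_mono_on (hiZ.mono_set sdiff_subset)
            ((hBi.mono_set hsub).const_mul K) hmD fun x hx => ?_
          exact mul_le_mul_of_nonneg_right (h2 x hx.1 (not_le.1 hx.2)).2 (hw0 x).le
      _ ≤ ∫ x in B, K * w x := by
          refine setIntegral_mono_set (hBi.const_mul K) ?_ ?_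
          · exact Eventually.of_forall fun x => mul_nonneg hK (hw0 x).le
          · exact Eventually.of_forall fun x hx => hsub hx
      _ = K * ∫ x in B, w x := integral_const_mul _ _

theorem hOex : StSm → StDlv → TNrm → SBal → SBgv → SGrw → SGlb → SPuc → SSpp → SCol → SOex := by
  intro hSm hDlv hNrm hBal hBgv hGrw hGlb hPuc hSpp hCol n m g Γ F G hg hΓ hF hc hsec p b β κ₀ r0
    hB hL A hA hW1 hW2
  obtain ⟨C₃, hC₃, hP⟩ := hPuc n (m + 1)
  obtain ⟨C₁, T1, hC₁, hT1, hC⟩ :=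
    hCol n m g Γ F G hg hΓ hF hc hsec p b β κ₀ r0 hB hL A hA hW1
  obtain ⟨C₂, T2, hC₂, hT2, hS⟩ :=
    hSpp n m g Γ F G hg hΓ hF hc hsec p b β κ₀ r0 hB hL A hA hW2
  obtain ⟨T3, hT3, hG⟩ := hGlb n g Γ hg hΓ hc p b κ₀ r0 hB
  obtain ⟨-, hcA, R0, hR0, hgr⟩ := hGrw n g Γ hg p b β κ₀ r0 hB hL
  obtain ⟨hopen, hfin, hvpos, hvint, hvmono⟩ := hBal n g Γ hg hΓ hc p
  obtain ⟨-, hbg, -⟩ := hBgv n g Γ hg hΓ hc hsec
  obtain ⟨hvsm, hvp, -⟩ := hDlv n g Γ hg hΓ
  have hκ : 0 < κ₀ := hB.kpos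
  have hq : ∀ {j : ℕ} (t : Tn n j), 0 ≤ q2 t := fun {j} t => ((hNrm n j).1 t).1
  have hβc : Continuous β := hL.smooth.continuous
  set D : ℝ := 8 / κ₀ + 1 with hD
  have h8 : 0 < 8 / κ₀ := by positivity
  have hD1 : 1 ≤ D := by rw [hD]; linarith
  have hD0 : 0 < D := by linarith
  have hDn : 0 < D ^ n := pow_pos hD0 n
  refine ⟨1 + C₃ * D ^ n * C₁ + C₃ * D ^ n * (16 / κ₀ ^ 2) * C₂,
    T1 + T2 + T3 + (2 * R0 + 4) + 8, by positivity, by linarith, ?_⟩
  intro T a hT ha P hPf u0 hu0 κ hκ'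
  have e1 : T1 ≤ T := by linarith
  have e2 : T2 ≤ T := by linarith
  have e3 : T3 ≤ T := by linarith
  have e4 : 2 * R0 + 4 ≤ T := by linarith
  have e5 : 8 ≤ T := by linarith
  have hT0 : 0 < T := by linarith
  set I : ℝ := ∫ x in An β a T, q2 (u0 x) * vol g x with hI
  set J : ℝ := ∫ x, q2 (P x) * vol g x with hJ
  set V : ℝ := vb g p T with hV
  have hI0 : 0 ≤ I := integral_nonneg fun x => mul_nonneg (hq _) (hvp x).le
  have hJ0 : 0 ≤ J := integral_nonneg fun x => mul_nonneg (hq _) (hvp x).le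
  have hV0 : 0 < V := hvpos T hT0
  set κ₁ : ℝ := κ / (1 + C₃ * D ^ n * V) with hκ₁
  have hden : 0 < 1 + C₃ * D ^ n * V := by positivity
  have hκ₁0 : 0 < κ₁ := div_pos hκ' hden
  obtain ⟨u1, hu1, hu1I, hu1s⟩ := hC T a e1 ha P hPf u0 hu0 κ₁ hκ₁0
  -- smooth convex approximation
  set ε : ℝ := κ₀ ^ 2 / (640 * (m + 2) * T) with hε
  have hm2 : (0 : ℝ) < (m : ℝ) + 2 := by positivity
  have hε0 : 0 < ε := by positivity
  have hε1 : ε * (40 * (((m + 1 : ℕ) : ℝ) + 1) * T) = (κ₀ / 4) ^ 2 := by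
    rw [hε]
    push_cast
    field_simp
    ring
  have hε2 : ε * (40 * T) ≤ κ₀ ^ 2 := by
    have h1 : ε * (40 * T) * (m + 2) = (κ₀ / 4) ^ 2 := by
      rw [← hε1]; push_cast; ring
    have h2 : 0 < ε * (40 * T) := by positivity
    have h3 : (0 : ℝ) ≤ m := Nat.cast_nonneg m
    nlinarith [sq_nonneg κ₀]
  obtain ⟨b', hb's, hb'⟩ := hSm n g Γ hg hΓ b hB.lip hB.cvx (fun _ => ε) continuous_const
    fun _ => hε0
  have hb'c : Continuous b' := hb's.continuous
  have hnear : ∀ x, |b' x - b x| ≤ 1 := fun x => (hb' x).1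
  have hhs : ∀ x v, -(ε * g x v v) ≤ Hs Γ b' x v v := fun x v => (hb' x).2.2 v
  have hbβ : ∀ x, b' x ≤ β x + 2 ∧ β x ≤ b' x + 2 := by
    intro x
    have h1 := abs_le.1 (hnear x)
    have h2 := abs_le.1 (hL.near x)
    constructor <;> linarith [h1.1, h1.2, h2.1, h2.2]
  have hcomp : ∀ R, IsCompact {x | b' x ≤ R} := by
    intro R
    refine (hB.prop (R + 1)).of_isClosed_subset (isClosed_le hb'c continuous_const) fun x hx => ?_
    have h1 := abs_le.1 (hnear x)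
    have h2 : b' x ≤ R := hx
    show b x ≤ R + 1
    linarith [h1.1]
  have hgs : ∀ x, T / 2 ≤ b' x → b' x ≤ 6 * T → (κ₀ / 4) ^ 2 ≤ gs g b' x := by
    intro x h1 h2
    have := hG T b' ε e3 hb's hnear hε0.le hε2 hhs x (by linarith) h2
    calc (κ₀ / 4) ^ 2 = κ₀ ^ 2 / 16 := by ring
      _ ≤ _ := this
  set U : ℝ := C₁ / V * I + κ₁ with hU
  set W : ℝ := C₂ / V * J with hW
  have hU0 : 0 ≤ U := by positivity
  have hW0 : 0 ≤ W := by positivity
  obtain ⟨u, hu, huu, hub⟩ := hP g Γ F G hg hΓ hF b' T (κ₀ / 4) ε hb's hcomp hT0 (by positivity)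
    hε0 hε1.le hhs hgs P u1 hu1 U W hU0 hW0
    (fun x h1 h2 => hu1s x (by linarith [(hbβ x).1]) (by linarith [(hbβ x).2]))
    (fun x h1 h2 => hS T e2 P hPf x (by linarith [(hbβ x).1]) (by linarith [(hbβ x).2]))
  refine ⟨u, hu, ?_⟩
  set K : ℝ := C₃ * (U + (T / (κ₀ / 4)) ^ 2 * W) with hK
  have hK0 : 0 ≤ K := by positivity
  have hvb0 : 0 < vb g p (D * T) := hvpos _ (by positivity)
  have hBi : IntegrableOn (vol g) (Ba g p (D * T)) := by
    by_contra hcon
    have h1 := hvint (D * T)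
    rw [integral_undef hcon] at h1
    linarith
  have hest := split_est (w := vol g) hvsm.continuous hvp (u := u) (u1 := u1)
    hu.1.continuous hu1.1.continuous (fun t => hq t) hb'c (Z := An β a (4 * T)) (Z1 := An β a T)
    (B := Ba g p (D * T)) (s := T / 2) (K := K) (hcA _ _) (hcA _ _) hBi
    (fun x hx h => ⟨⟨hx.1, by linarith [(hbβ x).2]⟩, huu x h⟩) hK0
    (fun x hx h => ⟨?_, hub x h.le (by linarith [(hbβ x).1, hx.2])⟩)
  · rw [hvint] at hest
    have hvD : vb g p (D * T) ≤ D ^ n * V := by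
      have h1 := hbg p (D * T) (1 / D) (by positivity) (by rw [div_le_one hD0]; exact hD1)
      rw [one_div_one_div] at h1
      have h2 : 1 / D * (D * T) = T := by field_simp
      rw [h2] at h1
      exact h1
    have hKV : K * vb g p (D * T) ≤ K * (D ^ n * V) := mul_le_mul_of_nonneg_left hvD hK0
    have hKe : K * (D ^ n * V) = C₃ * D ^ n * C₁ * I + C₃ * D ^ n * V * κ₁ +
        C₃ * D ^ n * (16 / κ₀ ^ 2) * C₂ * (T ^ 2 * J) := by
      rw [hK, hU, hW]
      field_simp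
      ring
    have hk : κ₁ + C₃ * D ^ n * V * κ₁ = κ := by
      rw [hκ₁]
      field_simp
    have p1 : 0 ≤ C₃ * D ^ n * C₁ * (T ^ 2 * J) := by positivity
    have p2 : 0 ≤ C₃ * D ^ n * (16 / κ₀ ^ 2) * C₂ * I := by positivity
    have p3 : 0 ≤ T ^ 2 * J := by positivity
    have hfin2 : (1 + C₃ * D ^ n * C₁ + C₃ * D ^ n * (16 / κ₀ ^ 2) * C₂) * (I + T ^ 2 * J) =
        I + C₃ * D ^ n * C₁ * I + C₃ * D ^ n * (16 / κ₀ ^ 2) * C₂ * (T ^ 2 * J) +
        (T ^ 2 * J + C₃ * D ^ n * C₁ * (T ^ 2 * J) + C₃ * D ^ n * (16 / κ₀ ^ 2) * C₂ * I) := by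
      ring
    rw [hfin2]
    linarith
  · -- the outer part lies in the ball
    have h1 : R0 ≤ β x := by linarith [(hbβ x).1]
    have h2 := (hgr x h1).1
    have h3 : β x ≤ 4 * T := hx.2
    show dg g p x < D * T
    have h4 : κ₀ / 2 * dg g p x ≤ 4 * T := h2.trans h3
    have h5 : dg g p x ≤ 8 / κ₀ * T := by
      rw [div_mul_eq_mul_div, le_div_iff₀ hκ]
      linarith
    rw [hD]
    linarith

end Pool.Agent.Helper66.QD
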