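import Pool.Agent.Helper58.QD.StL

/-!
Project QD, module Quf: the infimum of a quadratic form over the cosets of a subspace is a
quadratic form.
-/

set_option autoImplicit false

namespace Pool.Agent.Helper66.QD

open Helper62.LH Helper62.DSH Helper58.QD MeasureTheory Set Filter Topology
open scoped ContDiff ENNReal

lemma add_sq {V : Type} [AddCommGroup V] [Module ℝ V] (B : V →ₗ[ℝ] V →ₗ[ℝ] ℝ)
    (hs : ∀ x y, B x y = B y x) (x d : V) :
    B (x + d) (x + d) = B x x + 2 * B x d + B d d := by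
  simp only [map_add, LinearMap.add_apply]
  rw [hs d x]
  ring

lemma abs_le_half {V : Type} [AddCommGroup V] [Module ℝ V] (B : V →ₗ[ℝ] V →ₗ[ℝ] ℝ)
    (hs : ∀ x y, B x y = B y x) (hp : ∀ x, 0 ≤ B x x) (x d : V) :
    |B x d| ≤ (B x x + B d d) / 2 := by
  have h1 := hp (x + d)
  have h2 := hp (x + (-1 : ℝ) • d)
  rw [add_sq B hs] at h1 h2
  simp only [map_smul, LinearMap.smul_apply, smul_eq_mul] at h2
  rw [abs_le]
  constructor <;> linarith

lemma key {V : Type} [AddCommGroup V] [Module ℝ V] (B : V →ₗ[ℝ] V →ₗ[ℝ] ℝ)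
    (hs : ∀ x y, B x y = B y x) (hp : ∀ x, 0 ≤ B x x) (x d : V) (ε : ℝ) (hε : 0 ≤ ε)
    (h : ∀ t : ℝ, B x x - ε ^ 2 ≤ B (x + t • d) (x + t • d)) :
    |B x d| ≤ ε * √(B d d) := by
  have h1 : ∀ t : ℝ, 0 ≤ B d d * (t * t) + 2 * B x d * t + ε ^ 2 := by
    intro t
    have h2 := h t
    rw [add_sq B hs] at h2
    simp only [map_smul, LinearMap.smul_apply, smul_eq_mul] at h2
    linarith
  have h3 := discrim_le_zero h1
  unfold discrim at h3
  have h4 : B x d ^ 2 ≤ (ε * √(B d d)) ^ 2 := by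
    rw [mul_pow, Real.sq_sqrt (hp d)]
    linarith
  exact abs_le_of_sq_le_sq h4 (mul_nonneg hε (Real.sqrt_nonneg _))

theorem hQuf : SQuf := by
  intro M V _ _ q hsym hadd hsmul hpos D u
  let B : V →ₗ[ℝ] V →ₗ[ℝ] ℝ := LinearMap.mk₂ ℝ q hadd hsmul
    (fun x y z => by rw [hsym x, hadd, hsym y, hsym z])
    (fun c x y => by rw [hsym x, hsmul, hsym y]; rfl)
  have hBq : ∀ x y, q x y = B x y := fun x y => rfl
  have hs : ∀ x y, B x y = B y x := hsym
  have hp : ∀ x, 0 ≤ B x x := hpos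
  simp only [hBq]
  -- near minimizers
  have step : ∀ (i : Fin M) (k : ℕ), ∃ d ∈ D, ∀ d' ∈ D,
      B (u i + d) (u i + d) - (1 / ((k : ℝ) + 1)) ^ 2 ≤ B (u i + d') (u i + d') := by
    intro i k
    let A : Set ℝ := {r | ∃ d ∈ D, B (u i + d) (u i + d) = r}
    have hne : A.Nonempty := ⟨_, 0, D.zero_mem, rfl⟩
    have hbd : BddBelow A := ⟨0, by rintro r ⟨d, -, rfl⟩; exact hp _⟩
    have hk : (0 : ℝ) < (1 / ((k : ℝ) + 1)) ^ 2 := by positivity
    obtain ⟨r, ⟨d, hd, rfl⟩, hr⟩ := exists_lt_of_csInf_lt hne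
      (show sInf A < sInf A + (1 / ((k : ℝ) + 1)) ^ 2 by linarith)
    refine ⟨d, hd, fun d' hd' => ?_⟩
    have := csInf_le hbd (show B (u i + d') (u i + d') ∈ A from ⟨d', hd', rfl⟩)
    linarith
  choose d hd hmin using step
  -- the vectors
  set x : Fin M → ℕ → V := fun i k => u i + d i k with hx
  have hxm : ∀ i k, ∀ e ∈ D, B (x i k) (x i k) - (1 / ((k : ℝ) + 1)) ^ 2 ≤
      B (x i k + e) (x i k + e) := by
    intro i k e he
    have := hmin i k (d i k + e) (D.add_mem (hd i k) he)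
    simpa only [hx, add_assoc] using this
  have hxe : ∀ i k, ∀ e ∈ D, |B (x i k) e| ≤ 1 / ((k : ℝ) + 1) * √(B e e) := by
    intro i k e he
    exact key B hs hp _ _ _ (by positivity) fun t => hxm i k _ (D.smul_mem t he)
  have hub : ∀ i k, B (x i k) (x i k) ≤ B (u i) (u i) + 1 := by
    intro i k
    have h1 := hmin i k 0 D.zero_mem
    rw [add_zero] at h1
    have h2 : (1 / ((k : ℝ) + 1)) ^ 2 ≤ 1 := by
      have h3 : 1 / ((k : ℝ) + 1) ≤ 1 := by
        rw [div_le_one (by positivity)]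
        linarith [(Nat.cast_nonneg k : (0 : ℝ) ≤ k)]
      have h4 : 0 ≤ 1 / ((k : ℝ) + 1) := by positivity
      nlinarith
    linarith
  set K : ℝ := ∑ i, (B (u i) (u i) + 1) with hK
  have hKi : ∀ i, B (u i) (u i) + 1 ≤ K := fun i =>
    Finset.single_le_sum (f := fun i => B (u i) (u i) + 1)
      (fun j _ => by linarith [hp (u j)]) (Finset.mem_univ i)
  set y : ℕ → Fin M → Fin M → ℝ := fun k i j => B (x i k) (x j k) with hy
  have hyb : ∀ k i j, |y k i j| ≤ K := by
    intro k i j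
    have h1 := abs_le_half B hs hp (x i k) (x j k)
    have h2 := hub i k
    have h3 := hub j k
    have h4 := hKi i
    have h5 := hKi j
    simp only [hy]
    linarith
  obtain ⟨S, -, φ, hφ, hlim⟩ := (isCompact_Icc (a := (fun _ _ => -K : Fin M → Fin M → ℝ))
    (b := fun _ _ => K)).tendsto_subseq (x := y) fun k =>
      ⟨fun i j => (abs_le.1 (hyb k i j)).1, fun i j => (abs_le.1 (hyb k i j)).2⟩
  have hij : ∀ i j, Tendsto (fun k => y (φ k) i j) atTop (𝓝 (S i j)) := fun i j =>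
    tendsto_pi_nhds.1 (tendsto_pi_nhds.1 hlim i) j
  have hqf : ∀ c : Fin M → ℝ, Tendsto (fun k => qf (y (φ k)) c) atTop (𝓝 (qf S c)) := by
    intro c
    unfold qf
    exact tendsto_finsetSum _ fun i _ => tendsto_finsetSum _ fun j _ =>
      ((hij i j).const_mul (c i)).mul_const (c j)
  have hexp : ∀ (k : ℕ) (c : Fin M → ℝ),
      qf (y k) c = B (∑ i, c i • x i k) (∑ i, c i • x i k) := by
    intro k c
    simp only [qf, hy, map_sum, map_smul, LinearMap.sum_apply, LinearMap.smul_apply, smul_eq_mul,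
      Finset.mul_sum]
    rw [Finset.sum_comm]
    refine Finset.sum_congr rfl fun i _ => Finset.sum_congr rfl fun j _ => ?_
    ring
  have hz : Tendsto (fun k : ℕ => 1 / (((φ k : ℕ) : ℝ) + 1)) atTop (𝓝 0) :=
    tendsto_one_div_add_atTop_nhds_zero_nat.comp hφ.tendsto_atTop
  have hsplit : ∀ (k : ℕ) (c : Fin M → ℝ),
      ∑ i, c i • x i k = ∑ i, c i • u i + ∑ i, c i • d i k := by
    intro k c
    rw [← Finset.sum_add_distrib]
    refine Finset.sum_congr rfl fun i _ => ?_
    simp only [hx, smul_add]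
  have hdm : ∀ (k : ℕ) (c : Fin M → ℝ), ∑ i, c i • d i k ∈ D := fun k c =>
    D.sum_mem fun i _ => D.smul_mem _ (hd i k)
  refine ⟨S, fun i j => ?_, fun c => ?_, fun c e he => ?_, fun c κ hκ => ?_⟩
  · refine tendsto_nhds_unique (hij i j) ?_
    refine (hij j i).congr fun k => ?_
    exact hs _ _
  · refine ge_of_tendsto' (hqf c) fun k => ?_
    rw [hexp]
    exact hp _
  · -- lower bound
    set C : ℝ := ∑ i, |c i| with hC
    have hbound : ∀ k, qf (y (φ k)) c - (C * (1 / (((φ k : ℕ) : ℝ) + 1))) ^ 2 ≤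
        B (∑ i, c i • u i + e) (∑ i, c i • u i + e) := by
      intro k
      rw [hexp]
      set X := ∑ i, c i • x i (φ k) with hX
      set e' := e - ∑ i, c i • d i (φ k) with he'
      have hmem : e' ∈ D := D.sub_mem he (hdm _ c)
      have h1 : ∑ i, c i • u i + e = X + e' := by
        rw [hX, hsplit, he']
        abel
      rw [h1, add_sq B hs]
      set ε : ℝ := 1 / (((φ k : ℕ) : ℝ) + 1) with hε
      have h2 : |B X e'| ≤ C * (ε * √(B e' e')) := by
        rw [hX, map_sum, LinearMap.sum_apply]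
        refine (Finset.abs_sum_le_sum_abs _ _).trans ?_
        rw [hC, Finset.sum_mul]
        refine Finset.sum_le_sum fun i _ => ?_
        rw [map_smul, LinearMap.smul_apply, smul_eq_mul, abs_mul]
        exact mul_le_mul_of_nonneg_left (hxe i _ e' hmem) (abs_nonneg _)
      have h3 := (abs_le.1 h2).1
      have h4 : √(B e' e') ^ 2 = B e' e' := Real.sq_sqrt (hp _)
      nlinarith [sq_nonneg (√(B e' e') - C * ε)]
    have hl : Tendsto (fun k => qf (y (φ k)) c - (C * (1 / (((φ k : ℕ) : ℝ) + 1))) ^ 2) atTop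
        (𝓝 (qf S c - (C * 0) ^ 2)) := (hqf c).sub ((hz.const_mul C).pow 2)
    have := le_of_tendsto' hl hbound
    simpa using this
  · obtain ⟨k, hk⟩ := ((hqf c).eventually (gt_mem_nhds (show qf S c < qf S c + κ by linarith))).exists
    refine ⟨∑ i, c i • d i (φ k), hdm _ c, ?_⟩
    rw [← hsplit, ← hexp]
    exact hk.le

end Pool.Agent.Helper66.QD
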